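import Pool.Agent.Helper5.KPA.StD

/-! PROJECT KP, chapter A, module ABA: maximal independent homogeneous families. -/

set_option autoImplicit false

namespace Pool.Agent.Helper34.KPA

open Pool.Agent.Helper5.KPA Pool.Agent.Helper52.KP MvPolynomial

section

variable {s : ℕ}

private theorem aba_nat (d : ℕ) (p : MvPolynomial (Fin s) ℂ) :
    p ∈ hp s (d : ℤ) ↔ p.IsHomogeneous d := by
  unfold hp
  rw [if_pos (Int.natCast_nonneg d), Int.toNat_natCast, mem_homogeneousSubmodule]

private theorem aba_neg (d : ℤ) (hd : d < 0) (p : MvPolynomial (Fin s) ℂ) :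
    p ∈ hp s d ↔ p = 0 := by
  unfold hp
  rw [if_neg (not_le.2 hd), Submodule.mem_bot]

private theorem aba_mul (d e : ℤ) (p q : MvPolynomial (Fin s) ℂ) (h1 : p ∈ hp s d)
    (h2 : q ∈ hp s e) : p * q ∈ hp s (d + e) := by
  rcases lt_or_ge d 0 with h | h
  · rw [aba_neg d h] at h1
    rw [h1, zero_mul]
    exact zero_mem _
  rcases lt_or_ge e 0 with h' | h'
  · rw [aba_neg e h'] at h2
    rw [h2, mul_zero]
    exact zero_mem _
  obtain ⟨d, rfl⟩ := Int.eq_ofNat_of_zero_le h
  obtain ⟨e, rfl⟩ := Int.eq_ofNat_of_zero_le h'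
  rw [aba_nat] at h1 h2
  rw [← Nat.cast_add, aba_nat]
  exact h1.mul h2

private theorem aba_prod {I : Type} (S : Finset I) (g : I → MvPolynomial (Fin s) ℂ) (a : I → ℕ)
    (h : ∀ i ∈ S, g i ∈ hp s (a i : ℤ)) : ∏ i ∈ S, g i ∈ hp s ((∑ i ∈ S, a i : ℕ) : ℤ) := by
  rw [aba_nat]
  exact IsHomogeneous.prod S g a fun i hi => (aba_nat _ _).1 (h i hi)

variable {V : Type} [AddCommGroup V] [Module ℂ V]

private theorem aba_mono (ι : MvPolynomial (Fin s) ℂ →ₐ[ℂ] Module.End ℂ V)
    (N : ℕ → Submodule ℂ V) (hN : ∀ k i, ∀ x ∈ N k, ι (X i) x ∈ N (k + 1)) (n : ℕ) :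
    ∀ m : Fin s →₀ ℕ, m.degree = n → ∀ (c : ℂ) (k : ℕ), ∀ x ∈ N k,
      ι (monomial m c) x ∈ N (k + n) := by
  induction n with
  | zero =>
    intro m hm c k x hx
    have h0 : m = 0 := by
      rwa [Finsupp.degree_eq_zero_iff] at hm
    subst h0
    have e : (monomial 0 c : MvPolynomial (Fin s) ℂ) = algebraMap ℂ _ c := rfl
    rw [e, AlgHom.commutes, add_zero, Module.algebraMap_end_apply]
    exact (N k).smul_mem c hx
  | succ n ih =>
    intro m hm c k x hx
    obtain ⟨i, hi⟩ : ∃ i, m i ≠ 0 := by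
      by_contra h
      push Not at h
      have h0 : m = 0 := by
        ext i
        simp [h i]
      rw [h0] at hm
      simp at hm
    have hle : Finsupp.single i 1 ≤ m := by
      rw [Finsupp.single_le_iff]
      omega
    have hm' : m = Finsupp.single i 1 + (m - Finsupp.single i 1) :=
      (add_tsub_cancel_of_le hle).symm
    have hdeg : (m - Finsupp.single i 1).degree = n := by
      have h1 := congrArg Finsupp.degree hm'
      rw [map_add, Finsupp.degree_single, hm] at h1
      omega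
    have e : (monomial m c : MvPolynomial (Fin s) ℂ) =
        X i * monomial (m - Finsupp.single i 1) c := by
      rw [X, monomial_mul, one_mul, ← hm']
    rw [e, map_mul, Module.End.mul_apply, ← add_assoc]
    exact hN _ _ _ (ih _ hdeg c k x hx)

private theorem aba_act (ι : MvPolynomial (Fin s) ℂ →ₐ[ℂ] Module.End ℂ V)
    (N : ℕ → Submodule ℂ V) (hN : ∀ k i, ∀ x ∈ N k, ι (X i) x ∈ N (k + 1)) (d : ℤ)
    (p : MvPolynomial (Fin s) ℂ) (hd : p ∈ hp s d) (k n : ℕ) (hn : (n : ℤ) = k + d) (x : V)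
    (hx : x ∈ N k) : ι p x ∈ N n := by
  rcases lt_or_ge d 0 with h | h
  · rw [aba_neg d h] at hd
    rw [hd, map_zero]
    exact zero_mem _
  obtain ⟨d, rfl⟩ := Int.eq_ofNat_of_zero_le h
  rw [aba_nat] at hd
  have hn' : n = k + d := by exact_mod_cast hn
  subst hn'
  rw [← p.support_sum_monomial_coeff, map_sum, LinearMap.sum_apply]
  refine Submodule.sum_mem _ fun m hm => ?_
  have hdeg : m.degree = d := by
    by_contra hc
    exact (mem_support_iff.1 hm) (hd.coeff_eq_zero hc)
  exact aba_mono ι N hN d m hdeg _ k x hx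

/-- shifted homogeneous components -/
private noncomputable def hc (p : MvPolynomial (Fin s) ℂ) (d m : ℕ) : MvPolynomial (Fin s) ℂ :=
  if d ≤ m then homogeneousComponent (m - d) p else 0

private theorem hc_mem (p : MvPolynomial (Fin s) ℂ) (d m : ℕ) : hc p d m ∈ hp s ((m : ℤ) - d) := by
  unfold hc
  split_ifs with h
  · have e : (m : ℤ) - d = ((m - d : ℕ) : ℤ) := by omega
    rw [e, aba_nat]
    exact homogeneousComponent_isHomogeneous _ _
  · exact zero_mem _

private theorem hc_sum (p : MvPolynomial (Fin s) ℂ) (d K : ℕ) (hK : p.totalDegree + d < K) :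
    ∑ m ∈ Finset.range K, hc p d m = p := by
  obtain ⟨L, rfl⟩ : ∃ L, K = d + ((p.totalDegree + 1) + L) := ⟨K - d - (p.totalDegree + 1), by omega⟩
  rw [Finset.sum_range_add, Finset.sum_range_add]
  have h1 : ∑ m ∈ Finset.range d, hc p d m = 0 := by
    refine Finset.sum_eq_zero fun m hm => ?_
    rw [Finset.mem_range] at hm
    unfold hc
    rw [if_neg (not_le.2 hm)]
  have h2 : ∑ m ∈ Finset.range (p.totalDegree + 1), hc p d (d + m) = p := by
    conv_rhs => rw [← p.sum_homogeneousComponent]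
    refine Finset.sum_congr rfl fun m _ => ?_
    unfold hc
    rw [if_pos (Nat.le_add_right d m), Nat.add_sub_cancel_left]
  have h3 : ∑ m ∈ Finset.range L, hc p d (d + (p.totalDegree + 1 + m)) = 0 := by
    refine Finset.sum_eq_zero fun m _ => ?_
    unfold hc
    rw [if_pos (Nat.le_add_right _ _), Nat.add_sub_cancel_left]
    exact homogeneousComponent_eq_zero _ _ (by omega)
  rw [h1, h2, h3, zero_add, add_zero]

/-- homogeneous components of an element of `⨆ M'` -/
private theorem aba_comp (M' M : ℕ → Submodule ℂ V) (hM : iSupIndep M) (hle : ∀ k, M' k ≤ M k)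
    (F : Finset ℕ) (x : ℕ → V) (hx : ∀ n, x n ∈ M n) (h : ∑ n ∈ F, x n ∈ ⨆ k, M' k) (n : ℕ)
    (hn : n ∈ F) : x n ∈ M' n := by
  rw [iSup_split_single M' n, Submodule.mem_sup] at h
  obtain ⟨y, hy, z, hz, hyz⟩ := h
  have hz' : z ∈ ⨆ (m) (_ : m ≠ n), M m := (iSup₂_mono fun m _ => hle m) hz
  have h1 : x n - y ∈ ⨆ (m) (_ : m ≠ n), M m := by
    rw [← Finset.add_sum_erase F x hn] at hyz
    have e : x n - y = z - ∑ m ∈ F.erase n, x m := by
      rw [sub_eq_sub_iff_add_eq_add, ← hyz]
      abel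
    rw [e]
    refine sub_mem hz' (Submodule.sum_mem _ fun m hm => ?_)
    have hm' : m ≠ n := Finset.ne_of_mem_erase hm
    exact (le_iSup₂ (f := fun (m : ℕ) (_ : m ≠ n) => M m) m hm') (hx m)
  have h2 : x n - y ∈ M n := sub_mem (hx n) (hle n hy)
  have h3 : x n - y = 0 := by
    have := (hM n).le_bot ⟨h2, h1⟩
    simpa using this
  rw [sub_eq_zero] at h3
  rw [h3]
  exact hy

/-- generators, low degrees -/
private theorem aba_low (ι : MvPolynomial (Fin s) ℂ →ₐ[ℂ] Module.End ℂ V)
    (M : ℕ → Submodule ℂ V) (hfd : ∀ k, FiniteDimensional ℂ (M k)) (D k : ℕ) (hk : k < D + 1)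
    (x : V) (hx : x ∈ M k) :
    ∃ β : (Σ k : Fin (D + 1), Fin (Module.finrank ℂ (M k))) → MvPolynomial (Fin s) ℂ,
        (∀ i, β i ∈ hp s ((k : ℤ) - (i.1 : ℕ))) ∧
        ∑ i, ι (β i) (Module.finBasis ℂ (M i.1) i.2 : V) = x := by
  have hx' : x ∈ M ((⟨k, hk⟩ : Fin (D + 1)) : ℕ) := hx
  let β : (Σ k : Fin (D + 1), Fin (Module.finrank ℂ (M k))) → MvPolynomial (Fin s) ℂ :=
    fun i => if h : i.1 = ⟨k, hk⟩ then C ((Module.finBasis ℂ (M i.1)).repr
      ⟨x, by rw [h]; exact hx'⟩ i.2) else 0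
  have hβ0 : ∀ (k' : Fin (D + 1)) (j : Fin (Module.finrank ℂ (M k'))), k' ≠ ⟨k, hk⟩ →
      β ⟨k', j⟩ = 0 := fun k' j h => dif_neg h
  have hβ1 : ∀ j : Fin (Module.finrank ℂ (M ((⟨k, hk⟩ : Fin (D + 1)) : ℕ))),
      β ⟨⟨k, hk⟩, j⟩ = C ((Module.finBasis ℂ (M ((⟨k, hk⟩ : Fin (D + 1)) : ℕ))).repr
        ⟨x, hx'⟩ j) := fun j => dif_pos rfl
  refine ⟨β, ?_, ?_⟩
  · rintro ⟨k', j⟩
    by_cases h : k' = ⟨k, hk⟩
    · subst h
      rw [hβ1]
      have e : (k : ℤ) - (((⟨⟨k, hk⟩, j⟩ : Σ k : Fin (D + 1),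
          Fin (Module.finrank ℂ (M k))).1 : ℕ) : ℤ) = ((0 : ℕ) : ℤ) := by
        simp
      rw [e, aba_nat]
      exact isHomogeneous_C _ _
    · rw [hβ0 k' j h]
      exact zero_mem _
  · rw [Fintype.sum_sigma, Finset.sum_eq_single (⟨k, hk⟩ : Fin (D + 1))]
    · have h1 := (Module.finBasis ℂ (M ((⟨k, hk⟩ : Fin (D + 1)) : ℕ))).sum_repr ⟨x, hx'⟩
      have h2 := congrArg (fun y : M ((⟨k, hk⟩ : Fin (D + 1)) : ℕ) => (y : V)) h1
      simp only [Submodule.coe_sum, Submodule.coe_smul] at h2
      conv_rhs => rw [← h2]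
      refine Finset.sum_congr rfl fun j _ => ?_
      rw [hβ1, ← MvPolynomial.algebraMap_eq, AlgHom.commutes, Module.algebraMap_end_apply]
    · intro k' _ hk'
      refine Finset.sum_eq_zero fun j _ => ?_
      rw [hβ0 k' j hk', map_zero, LinearMap.zero_apply]
    · intro h
      exact absurd (Finset.mem_univ _) h

/-- generators -/
private theorem aba_gen (ι : MvPolynomial (Fin s) ℂ →ₐ[ℂ] Module.End ℂ V)
    (M' M : ℕ → Submodule ℂ V) (hfd : ∀ k, FiniteDimensional ℂ (M k)) (hF : FgM ι M' M) :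
    ∃ (I : Type) (_ : Fintype I) (_ : DecidableEq I) (w : I → V) (dw : I → ℕ),
      (∀ i, w i ∈ M (dw i)) ∧ ∀ k, ∀ x ∈ M k, ∃ β : I → MvPolynomial (Fin s) ℂ,
        (∀ i, β i ∈ hp s ((k : ℤ) - dw i)) ∧ x - ∑ i, ι (β i) (w i) ∈ M' k := by
  classical
  obtain ⟨D, hD⟩ := hF.fg
  refine ⟨Σ k : Fin (D + 1), Fin (Module.finrank ℂ (M k)), inferInstance, Classical.decEq _,
    fun i => (Module.finBasis ℂ (M i.1) i.2 : V), fun i => i.1, fun i => Submodule.coe_mem _, ?_⟩
  intro k
  induction k with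
  | zero =>
    intro x hx
    obtain ⟨β, h1, h2⟩ := aba_low ι M hfd D 0 (Nat.succ_pos D) x hx
    refine ⟨β, h1, ?_⟩
    rw [h2, sub_self]
    exact zero_mem _
  | succ k ih =>
    intro x hx
    rcases Nat.lt_or_ge k D with hk | hk
    · obtain ⟨β, h1, h2⟩ := aba_low ι M hfd D (k + 1) (by omega) x hx
      refine ⟨β, h1, ?_⟩
      rw [h2, sub_self]
      exact zero_mem _
    · obtain ⟨y, hy, hxy⟩ := hD k hk x hx
      choose β hβ1 hβ2 using fun i => ih (y i) (hy i)
      refine ⟨fun j => ∑ i, X i * β i j, ?_, ?_⟩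
      · intro j
        refine Submodule.sum_mem _ fun i _ => ?_
        have h1 : (X i : MvPolynomial (Fin s) ℂ) ∈ hp s ((1 : ℕ) : ℤ) := by
          rw [aba_nat]
          exact isHomogeneous_X _ _
        have h2 := aba_mul _ _ _ _ h1 (hβ1 i j)
        have e : ((1 : ℕ) : ℤ) + ((k : ℤ) - (j.1 : ℕ)) = ((k + 1 : ℕ) : ℤ) - (j.1 : ℕ) := by
          push_cast
          ring
        rw [e] at h2
        exact h2
      · have e : x - ∑ j : (Σ k : Fin (D + 1), Fin (Module.finrank ℂ (M k))),
              ι (∑ i, X i * β i j) (Module.finBasis ℂ (M j.1) j.2 : V) =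
            (x - ∑ i, ι (X i) (y i)) + ∑ i, ι (X i) (y i -
              ∑ j : (Σ k : Fin (D + 1), Fin (Module.finrank ℂ (M k))), ι (β i j)
              (Module.finBasis ℂ (M j.1) j.2 : V)) := by
          simp only [map_sub, map_sum, map_mul, LinearMap.sum_apply, Module.End.mul_apply,
            Finset.sum_sub_distrib]
          rw [Finset.sum_comm]
          abel
        rw [e]
        exact add_mem hxy (Submodule.sum_mem _ fun i _ => hF.act _ _ _ (hβ2 i))

end

/-- **ABA.** -/
theorem hABA : StABA := by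
  classical
  intro s V _ _ ι M' M hG hF
  obtain ⟨I, _, _, w, dw, hw, hgen⟩ := aba_gen ι M' M hG.fd hF
  -- maximal independent subset
  let Ind : Finset I → Prop := fun T => ∀ α : I → MvPolynomial (Fin s) ℂ,
    ∑ j ∈ T, ι (α j) (w j) ∈ (⨆ k, M' k) → ∀ j ∈ T, α j = 0
  have hne : (Finset.univ.filter Ind).Nonempty := ⟨∅, by
    rw [Finset.mem_filter]
    exact ⟨Finset.mem_univ _, fun α _ j hj => absurd hj (Finset.notMem_empty j)⟩⟩
  obtain ⟨T, hT, hmax⟩ := Finset.exists_max_image _ Finset.card hne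
  have hTi : Ind T := (Finset.mem_filter.1 hT).2
  have hrel : ∀ i, ∃ (a : ℕ) (g : MvPolynomial (Fin s) ℂ) (α : I → MvPolynomial (Fin s) ℂ),
      g ≠ 0 ∧ g ∈ hp s (a : ℤ) ∧ (∀ j, α j ∈ hp s ((a : ℤ) + dw i - dw j)) ∧
      ι g (w i) - ∑ j ∈ T, ι (α j) (w j) ∈ M' (a + dw i) := by
    intro i
    by_cases hi : i ∈ T
    · refine ⟨0, 1, Pi.single i 1, one_ne_zero, ?_, ?_, ?_⟩
      · rw [aba_nat]
        exact isHomogeneous_one _ _
      · intro j
        by_cases hj : j = i
        · subst hj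
          rw [Pi.single_eq_same]
          have e : ((0 : ℕ) : ℤ) + dw j - dw j = ((0 : ℕ) : ℤ) := by simp
          rw [e, aba_nat]
          exact isHomogeneous_one _ _
        · rw [Pi.single_eq_of_ne hj]
          exact zero_mem _
      · have e : ∑ j ∈ T, ι ((Pi.single i 1 : I → MvPolynomial (Fin s) ℂ) j) (w j) =
            ι 1 (w i) := by
          rw [Finset.sum_eq_single i]
          · rw [Pi.single_eq_same]
          · intro j _ hj
            rw [Pi.single_eq_of_ne hj, map_zero, LinearMap.zero_apply]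
          · intro h
            exact absurd hi h
        rw [e, sub_self]
        exact zero_mem _
    · have hnot : ¬ Ind (insert i T) := by
        intro h
        have h1 := hmax (insert i T) (by
          rw [Finset.mem_filter]
          exact ⟨Finset.mem_univ _, h⟩)
        rw [Finset.card_insert_of_notMem hi] at h1
        omega
      simp only [Ind] at hnot
      push Not at hnot
      obtain ⟨α, hα1, j0, hj0, hα2⟩ := hnot
      have hαi : α i ≠ 0 := by
        intro h0
        rw [Finset.sum_insert hi, h0, map_zero, LinearMap.zero_apply, zero_add] at hα1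
        have h1 := hTi α hα1
        rcases Finset.mem_insert.1 hj0 with h | h
        · rw [h] at hα2
          exact hα2 h0
        · exact hα2 (h1 j0 h)
      obtain ⟨a, ha⟩ : ∃ a, homogeneousComponent a (α i) ≠ 0 := by
        by_contra h
        push Not at h
        apply hαi
        rw [← (α i).sum_homogeneousComponent]
        exact Finset.sum_eq_zero fun n _ => h n
      -- bound
      let K : ℕ := (a + dw i) + ∑ j ∈ insert i T, ((α j).totalDegree + dw j) + 1
      have hK : ∀ j ∈ insert i T, (α j).totalDegree + dw j < K := by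
        intro j hj
        have := Finset.single_le_sum (f := fun j => (α j).totalDegree + dw j)
          (fun _ _ => Nat.zero_le _) hj
        simp only [K]
        omega
      have hx : ∀ n, ∑ j ∈ insert i T, ι (hc (α j) (dw j) n) (w j) ∈ M n := by
        intro n
        refine Submodule.sum_mem _ fun j _ => ?_
        exact aba_act ι M hG.act _ _ (hc_mem _ _ _) (dw j) n (by ring) _ (hw j)
      have hsum : ∑ n ∈ Finset.range K, ∑ j ∈ insert i T, ι (hc (α j) (dw j) n) (w j) =
          ∑ j ∈ insert i T, ι (α j) (w j) := by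
        rw [Finset.sum_comm]
        refine Finset.sum_congr rfl fun j hj => ?_
        conv_rhs => rw [← hc_sum (α j) (dw j) K (hK j hj)]
        rw [map_sum, LinearMap.sum_apply]
      have hcomp := aba_comp M' M hG.ind hF.le (Finset.range K)
        (fun n => ∑ j ∈ insert i T, ι (hc (α j) (dw j) n) (w j)) hx (by rw [hsum]; exact hα1)
        (a + dw i) (by
          rw [Finset.mem_range]
          simp only [K]
          omega)
      have hcg : hc (α i) (dw i) (a + dw i) = homogeneousComponent a (α i) := by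
        unfold hc
        rw [if_pos (Nat.le_add_left _ _), Nat.add_sub_cancel]
      refine ⟨a, homogeneousComponent a (α i), fun j => - hc (α j) (dw j) (a + dw i), ha, ?_, ?_,
        ?_⟩
      · rw [aba_nat]
        exact homogeneousComponent_isHomogeneous _ _
      · intro j
        have h1 := hc_mem (α j) (dw j) (a + dw i)
        rw [Nat.cast_add] at h1
        exact neg_mem h1
      · simp only [map_neg, LinearMap.neg_apply, Finset.sum_neg_distrib, sub_neg_eq_add]
        rw [Finset.sum_insert hi, hcg] at hcomp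
        exact hcomp
  choose a g A hg0 hgh hA hrel using hrel
  let e : Fin T.card ≃ T := T.equivFin.symm
  have hes : ∀ F : I → V, ∑ j : Fin T.card, F (e j) = ∑ j ∈ T, F j := by
    intro F
    rw [Equiv.sum_comp e (fun i : T => F i), Finset.sum_coe_sort]
  refine ⟨T.card, fun j => w (e j), fun j => dw (e j), ∑ i, a i, ∏ i, g i, ?_, ?_, ?_, ?_, ?_⟩
  · intro j
    exact hw _
  · intro α hα
    let α' : I → MvPolynomial (Fin s) ℂ := fun i => if h : i ∈ T then α (e.symm ⟨i, h⟩) else 0
    have hα' : ∀ j, α' (e j) = α j := by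
      intro j
      simp only [α']
      rw [dif_pos (e j).2]
      simp
    have h1 : ∑ j ∈ T, ι (α' j) (w j) ∈ (⨆ k, M' k) := by
      rw [← hes (fun j => ι (α' j) (w j))]
      simp only [hα']
      exact hα
    have h2 := hTi α' h1
    funext j
    rw [← hα' j]
    exact h2 _ (e j).2
  · exact Finset.prod_ne_zero_iff.2 fun i _ => hg0 i
  · exact aba_prod Finset.univ g a fun i _ => hgh i
  · intro k x hx
    obtain ⟨β, hβ1, hβ2⟩ := hgen k x hx
    have hG' : ∀ i, ∏ i' ∈ Finset.univ.erase i, g i' ∈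
        hp s ((∑ i' ∈ Finset.univ.erase i, a i' : ℕ) : ℤ) := fun i =>
      aba_prod _ g a fun i _ => hgh i
    have hsplit : ∀ i, ((∑ i' ∈ Finset.univ.erase i, a i' : ℕ) : ℤ) = ((∑ i', a i' : ℕ) : ℤ) - a i := by
      intro i
      have := Finset.add_sum_erase Finset.univ a (Finset.mem_univ i)
      omega
    have hgsplit : ∀ i, g i * ∏ i' ∈ Finset.univ.erase i, g i' = ∏ i', g i' := fun i =>
      Finset.mul_prod_erase Finset.univ g (Finset.mem_univ i)
    have hβG : ∀ i, β i * ∏ i' ∈ Finset.univ.erase i, g i' ∈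
        hp s (((k : ℤ) - dw i) + (((∑ i', a i' : ℕ) : ℤ) - a i)) := by
      intro i
      have := aba_mul _ _ _ _ (hβ1 i) (hG' i)
      rw [hsplit] at this
      exact this
    refine ⟨fun j => ∑ i, (β i * ∏ i' ∈ Finset.univ.erase i, g i') * A i (e j), ?_, ?_⟩
    · intro j
      refine Submodule.sum_mem _ fun i _ => ?_
      have h1 := aba_mul _ _ _ _ (hβG i) (hA i (e j))
      have e1 : ((k : ℤ) - dw i) + (((∑ i', a i' : ℕ) : ℤ) - a i) + ((a i : ℤ) + dw i - dw (e j)) =
          (k : ℤ) + ((∑ i', a i' : ℕ) : ℤ) - dw (e j) := by ring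
      rw [e1] at h1
      exact h1
    · rw [hes (fun j => ι (∑ i, (β i * ∏ i' ∈ Finset.univ.erase i, g i') * A i j) (w j))]
      have e2 : ι (∏ i, g i) x - ∑ j ∈ T, ι (∑ i, (β i * ∏ i' ∈ Finset.univ.erase i, g i') * A i j)
            (w j) =
          ι (∏ i, g i) (x - ∑ i, ι (β i) (w i)) +
          ∑ i, ι (β i * ∏ i' ∈ Finset.univ.erase i, g i')
            (ι (g i) (w i) - ∑ j ∈ T, ι (A i j) (w j)) := by
        have e3 : ∑ j ∈ T, ι (∑ i, (β i * ∏ i' ∈ Finset.univ.erase i, g i') * A i j) (w j) =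
            ∑ i, ι (β i * ∏ i' ∈ Finset.univ.erase i, g i') (∑ j ∈ T, ι (A i j) (w j)) := by
          simp only [map_sum (ι _), map_sum ι, LinearMap.sum_apply]
          rw [Finset.sum_comm]
          refine Finset.sum_congr rfl fun i _ => Finset.sum_congr rfl fun j _ => ?_
          rw [map_mul ι (β i * ∏ i' ∈ Finset.univ.erase i, g i') (A i j), Module.End.mul_apply]
        have e4 : ι (∏ i, g i) (∑ i, ι (β i) (w i)) =
            ∑ i, ι (β i * ∏ i' ∈ Finset.univ.erase i, g i') (ι (g i) (w i)) := by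
          rw [map_sum (ι _)]
          refine Finset.sum_congr rfl fun i _ => ?_
          rw [← Module.End.mul_apply, ← Module.End.mul_apply, ← map_mul, ← map_mul]
          congr 2
          rw [← hgsplit i]
          ring
        simp only [map_sub (ι _), Finset.sum_sub_distrib]
        rw [e3, e4]
        abel
      rw [e2]
      refine add_mem ?_ (Submodule.sum_mem _ fun i _ => ?_)
      · exact aba_act ι M' hF.act _ _ (aba_prod Finset.univ g a fun i _ => hgh i) k _
          (by push_cast; ring) _ hβ2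
      · exact aba_act ι M' hF.act _ _ (hβG i) (a i + dw i) _ (by push_cast; ring) _ (hrel i)

end Pool.Agent.Helper34.KPA
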