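import Pool.Agent.Helper85.KPA.StC

/-! PROJECT KP, chapter A part C, module CSP: coefficients and values. -/

set_option autoImplicit false

namespace Pool.Agent.Helper34.KPA

open Pool.Agent.Helper85.KPA Pool.Agent.Helper5.KPA Pool.Agent.Helper52.KP MvPolynomial

/-- **CSP.** -/
theorem hCSP : StCSP := by
  classical
  intro m N y hy l
  rw [← Submodule.Quotient.mk_eq_zero, ← Module.forall_dual_apply_eq_zero_iff ℂ]
  intro φ
  let ψ : MvPolynomial (Fin m) ℂ →ₗ[ℂ] ℂ := φ ∘ₗ N.mkQ
  have hψ : ∀ a ∈ N, ψ a = 0 := by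
    intro a ha
    change φ (N.mkQ a) = 0
    rw [Submodule.mkQ_apply, (Submodule.Quotient.mk_eq_zero N).2 ha, map_zero]
  let p : Polynomial ℂ := ∑ l ∈ y.support, Polynomial.monomial l (ψ (y.coeff l))
  have hp : p = 0 := by
    apply Polynomial.funext
    intro τ
    rw [Polynomial.eval_zero]
    have h1 := hψ _ (hy τ)
    rw [Polynomial.eval_eq_sum, Polynomial.sum_def, map_sum] at h1
    rw [← h1, Polynomial.eval_finsetSum]
    refine Finset.sum_congr rfl fun n _ => ?_
    rw [Polynomial.eval_monomial, ← map_pow, mul_comm (y.coeff n), ← MvPolynomial.smul_eq_C_mul,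
      map_smul, smul_eq_mul, mul_comm]
  have h2 : p.coeff l = ψ (y.coeff l) := by
    simp only [p, Polynomial.finsetSum_coeff, Polynomial.coeff_monomial]
    rw [Finset.sum_ite_eq']
    split_ifs with h
    · rfl
    · rw [Polynomial.notMem_support_iff] at h
      rw [h, map_zero]
  rw [hp, Polynomial.coeff_zero] at h2
  exact h2.symm

end Pool.Agent.Helper34.KPA
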