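import Pool.Agent.Helper5.KPA.StT

/-! PROJECT KP, chapter T, module TPE: primitive element. -/

set_option autoImplicit false

namespace Pool.Agent.Helper34.KPA

open Pool.Agent.Helper5.KPA Pool.Agent.Helper52.KP MvPolynomial

section

open IntermediateField

private theorem tpe_field {B K L : Type} [Field K] [CharZero K] [Field L] [CommRing B]
    [IsDomain B] [Algebra B L] [IsFractionRing B L] [Algebra K L] [FiniteDimensional K L]
    [Algebra ℂ B] [Algebra ℂ K] [Algebra ℂ L] [IsScalarTower ℂ K L] [IsScalarTower ℂ B L] :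
    ∃ θ : B, K⟮algebraMap B L θ⟯ = ⊤ := by
  have hfin : Finite (IntermediateField K L) :=
    Field.finite_intermediateField_of_exists_primitive_element K L
      (Field.exists_primitive_element K L)
  by_contra hc
  push Not at hc
  let W : {E : IntermediateField K L // E ≠ ⊤} → Submodule ℂ B := fun E =>
    { carrier := {b | algebraMap B L b ∈ E.1}
      add_mem' := by
        intro b b' h h'
        have : algebraMap B L (b + b') ∈ E.1 := by
          rw [map_add]
          exact E.1.add_mem h h'
        exact this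
      zero_mem' := by
        have : algebraMap B L 0 ∈ E.1 := by
          rw [map_zero]
          exact E.1.zero_mem
        exact this
      smul_mem' := by
        intro c b h
        have : algebraMap B L (c • b) ∈ E.1 := by
          rw [Algebra.smul_def, map_mul, ← IsScalarTower.algebraMap_apply ℂ B L,
            IsScalarTower.algebraMap_apply ℂ K L]
          exact E.1.mul_mem (E.1.algebraMap_mem _) h
        exact this }
  have hcov : ⋃ E, (W E : Set B) = Set.univ := by
    rw [Set.eq_univ_iff_forall]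
    intro b
    exact Set.mem_iUnion.2 ⟨⟨K⟮algebraMap B L b⟯, hc b⟩, mem_adjoin_simple_self K _⟩
  obtain ⟨E, hE⟩ := Subspace.exists_eq_top_of_iUnion_eq_univ hcov
  apply E.2
  rw [eq_top_iff]
  intro x _
  obtain ⟨p, q, hq, rfl⟩ := IsFractionRing.div_surjective (A := B) x
  have hall : ∀ b, algebraMap B L b ∈ E.1 := fun b => by
    have h : b ∈ W E := by
      rw [hE]
      trivial
    exact h
  exact E.1.div_mem (hall p) (hall q)

private theorem tpe_gen {R K B L : Type} [CommRing R] [IsDomain R] [Field K] [CharZero K]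
    [CommRing B] [IsDomain B] [Field L] [Algebra ℂ R] [Algebra ℂ K] [Algebra ℂ B] [Algebra ℂ L]
    [Algebra R K] [IsFractionRing R K] [Algebra B L] [IsFractionRing B L] [IsScalarTower ℂ R K]
    [IsScalarTower ℂ B L] [Algebra.FiniteType ℂ B] (φ : R →ₐ[ℂ] B) (hφ : Function.Injective φ)
    (halg : ∀ b : B, ∃ p : Polynomial R, p ≠ 0 ∧ Polynomial.eval₂ (φ : R →+* B) b p = 0) :
    ∃ (θ : B) (χ : Polynomial R), Irreducible (χ.map (algebraMap R K)) ∧
      Polynomial.eval₂ (φ : R →+* B) θ χ = 0 ∧
      ∀ p : B, ∃ (s : R) (h : Polynomial R), s ≠ 0 ∧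
        φ s * p = Polynomial.eval₂ (φ : R →+* B) θ h := by
  classical
  have hBL : Function.Injective (algebraMap B L) := IsFractionRing.injective B L
  have hRK : Function.Injective (algebraMap R K) := IsFractionRing.injective R K
  let g : R →ₐ[ℂ] L := (IsScalarTower.toAlgHom ℂ B L).comp φ
  have hg : Function.Injective g := hBL.comp hφ
  let j : K →ₐ[ℂ] L := IsFractionRing.liftAlgHom (K := K) hg
  have hj : ∀ r, j (algebraMap R K r) = algebraMap B L (φ r) := by
    intro r
    exact IsFractionRing.lift_algebraMap (K := K) hg r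
  let _ : Algebra R B := (φ : R →+* B).toAlgebra
  let _ : Algebra K L := (j : K →+* L).toAlgebra
  let _ : Algebra R L := ((algebraMap B L).comp (φ : R →+* B)).toAlgebra
  have t1 : IsScalarTower R B L := .of_algebraMap_eq fun _ => rfl
  have t2 : IsScalarTower R K L := .of_algebraMap_eq fun r => (hj r).symm
  have t3 : IsScalarTower ℂ K L := .of_algebraMap_eq fun c => (j.commutes c).symm
  have t4 : IsScalarTower ℂ R B := .of_algebraMap_eq fun c => (φ.commutes c).symm
  -- finiteness
  have f1 : Algebra.FiniteType R B := .of_restrictScalars_finiteType ℂ R B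
  have f2 : Algebra.EssFiniteType B L := .of_isLocalization L (nonZeroDivisors B)
  have f3 : Algebra.EssFiniteType R L := .comp R B L
  have f4 : Algebra.EssFiniteType K L := .of_comp R K L
  have a1 : ∀ b : B, IsAlgebraic K (algebraMap B L b) := by
    intro b
    obtain ⟨p, hp0, hp⟩ := halg b
    refine ⟨p.map (algebraMap R K), ?_, ?_⟩
    · rwa [Ne, Polynomial.map_eq_zero_iff hRK]
    · have h0 : Polynomial.aeval b p = 0 := hp
      rw [Polynomial.aeval_map_algebraMap, Polynomial.aeval_algebraMap_apply, h0, map_zero]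
  have a2 : Algebra.IsAlgebraic K L := by
    refine ⟨fun x => ?_⟩
    obtain ⟨p, q, hq, rfl⟩ := IsFractionRing.div_surjective (A := B) x
    rw [div_eq_mul_inv]
    exact (a1 p).mul (a1 q).inv
  have f5 : FiniteDimensional K L := by
    obtain ⟨S, hS⟩ := IntermediateField.fg_top K L
    have h1 : FiniteDimensional K (IntermediateField.adjoin K (S : Set L)) :=
      IntermediateField.finiteDimensional_adjoin fun x _ => (Algebra.IsAlgebraic.isAlgebraic x).isIntegral
    rw [hS] at h1
    exact IntermediateField.topEquiv.toLinearEquiv.finiteDimensional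
  obtain ⟨θ, hθ⟩ := tpe_field (B := B) (K := K) (L := L)
  have hint : IsIntegral K (algebraMap B L θ) := Algebra.IsIntegral.isIntegral _
  -- evaluation of polynomials over `R`
  have hev : ∀ (q : Polynomial R), algebraMap B L (Polynomial.eval₂ (φ : R →+* B) θ q) =
      Polynomial.aeval (algebraMap B L θ) (q.map (algebraMap R K)) := by
    intro q
    rw [Polynomial.aeval_map_algebraMap]
    have : Polynomial.eval₂ (φ : R →+* B) θ q = Polynomial.aeval θ q := rfl
    rw [this, Polynomial.aeval_algebraMap_apply]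
  have hclear : ∀ q : Polynomial K, ∃ (s : R) (h : Polynomial R), s ≠ 0 ∧
      h.map (algebraMap R K) = Polynomial.C (algebraMap R K s) * q := by
    intro q
    obtain ⟨b, hb0, hb⟩ := IsLocalization.integerNormalization_spec (nonZeroDivisors R) q
    refine ⟨b, _, nonZeroDivisors.ne_zero hb0, hb.trans ?_⟩
    rw [← Polynomial.smul_eq_C_mul, algebraMap_smul]
  obtain ⟨b, χ, hb0, hχ⟩ := hclear (minpoly K (algebraMap B L θ))
  refine ⟨θ, χ, ?_, ?_, ?_⟩
  · rw [hχ]
    have hirr := minpoly.irreducible hint
    have hu : IsUnit (Polynomial.C (algebraMap R K b)) := by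
      rw [Polynomial.isUnit_C]
      exact IsUnit.mk0 _ (by rwa [Ne, map_eq_zero_iff _ hRK])
    rwa [irreducible_isUnit_mul hu]
  · apply hBL
    rw [hev, hχ, map_mul, minpoly.aeval, mul_zero, map_zero]
  · intro p
    have hp : algebraMap B L p ∈ K⟮algebraMap B L θ⟯ := by
      rw [hθ]
      exact IntermediateField.mem_top
    rw [← IntermediateField.mem_toSubalgebra,
      IntermediateField.adjoin_simple_toSubalgebra_of_isAlgebraic hint.isAlgebraic,
      Algebra.adjoin_singleton_eq_range_aeval] at hp
    obtain ⟨q, hq⟩ := hp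
    obtain ⟨s, h, hs0, hh⟩ := hclear q
    refine ⟨s, h, hs0, ?_⟩
    apply hBL
    rw [hev, hh, map_mul, map_mul, Polynomial.aeval_C]
    have hq' : Polynomial.aeval (algebraMap B L θ) q = algebraMap B L p := hq
    rw [hq', ← hj s]
    rfl

end

/-- **TPE.** -/
theorem hTPE : StTPE := by
  intro M a ha
  have hinj : Function.Injective (aeval a : MvPolynomial (Fin M) ℂ →ₐ[ℂ] MvPolynomial (Fin M) ℂ) := ha
  have htb : IsTranscendenceBasis ℂ a := by
    refine ha.isTranscendenceBasis_of_trdeg_le_of_finite ?_
    rw [MvPolynomial.trdeg_of_isDomain, Cardinal.lift_uzero]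
  have halg : ∀ b : MvPolynomial (Fin M) ℂ, ∃ p : Polynomial (MvPolynomial (Fin M) ℂ), p ≠ 0 ∧
      Polynomial.eval₂ ((aeval a : MvPolynomial (Fin M) ℂ →ₐ[ℂ] MvPolynomial (Fin M) ℂ) :
        MvPolynomial (Fin M) ℂ →+* MvPolynomial (Fin M) ℂ) b p = 0 := by
    intro b
    obtain ⟨q, hq0, hq⟩ := htb.isAlgebraic.isAlgebraic b
    refine ⟨q.map (ha.aevalEquiv.symm : Algebra.adjoin ℂ (Set.range a) →+*
      MvPolynomial (Fin M) ℂ), ?_, ?_⟩
    · intro h
      rw [Polynomial.map_eq_zero_iff] at h
      · exact hq0 h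
      · exact ha.aevalEquiv.symm.injective
    · rw [Polynomial.eval₂_map]
      have e : (((aeval a : MvPolynomial (Fin M) ℂ →ₐ[ℂ] MvPolynomial (Fin M) ℂ) :
          MvPolynomial (Fin M) ℂ →+* MvPolynomial (Fin M) ℂ).comp
          (ha.aevalEquiv.symm : Algebra.adjoin ℂ (Set.range a) →+* MvPolynomial (Fin M) ℂ)) =
          algebraMap (Algebra.adjoin ℂ (Set.range a)) (MvPolynomial (Fin M) ℂ) := by
        ext y
        · have := ha.algebraMap_aevalEquiv (ha.aevalEquiv.symm y)
          rw [AlgEquiv.apply_symm_apply] at this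
          exact congrArg _ this.symm
      rw [e]
      exact hq
  obtain ⟨θ, χ, h1, h2, h3⟩ := tpe_gen (K := KK M) (L := KK M)
    (aeval a : MvPolynomial (Fin M) ℂ →ₐ[ℂ] MvPolynomial (Fin M) ℂ) hinj halg
  refine ⟨θ, χ, ?_, h1, h2, h3⟩
  have h4 := h1.natDegree_pos
  exact h4.trans_le Polynomial.natDegree_map_le

end Pool.Agent.Helper34.KPA
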